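import Pool.Agent.NTS.StmtsE

/-!
# NTS, row TWO: zoom at a vertex with an additional direction
-/

set_option autoImplicit false

open Matrix Filter Topology

namespace Pool.Agent.NTS.H49

open Pool.Agent.PFS Pool.Agent.PFJ Pool.Agent.NTS

theorem two (hEXV : ExvStmt) : TwoStmt := by
  intro n C Γ h K hK hmax w y k hw hy hne
  classical
  by_contra hcon
  push Not at hcon
  have H := h.hul
  have hwcl : ∀ m, w m ∈ closure C := fun m => H.lamCl _ (hw.2 m)
  have hycl : y ∈ closure C := H.lamCl _ hy
  have hyH : y ∈ Hull C Γ := H.lamHull _ hy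
  have hExt : Ext C (w k) := hEXV n C Γ h K hK hmax w hw k
  have hwk0 : w k ≠ 0 := H.lamNe _ (hw.2 k)
  have hsumC : ∑ m, w m ∈ C := by
    have := hw.1.pos (fun _ => 1) (fun _ => one_pos)
    simpa using this
  -- the vertex does not dominate `y`
  have hkey : ∀ M t : ℝ, 0 < t → M • w k - t • y ∉ closure C := by
    intro M t ht hmem
    have h2 := h.cl_smul hmem (t := t⁻¹) (by positivity)
    rw [smul_sub, smul_smul, smul_smul, inv_mul_cancel₀ ht.ne', one_smul] at h2
    exact hne (hExt y hycl _ h2)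
  obtain ⟨l, hl⟩ : ∃ l : Fin K, l ≠ k := by
    have : Nontrivial (Fin K) := Fin.nontrivial_iff_two_le.mpr (by omega)
    exact exists_ne k
  let x0 : V n := ∑ m ∈ Finset.univ.erase k, w m
  have hx0k : x0 + w k = ∑ m, w m := by
    rw [add_comm]
    exact Finset.add_sum_erase _ _ (Finset.mem_univ k)
  have hx0cl : x0 ∈ closure C := h.cl_sum fun m _ => hwcl m
  have hne_erase : (Finset.univ.erase k : Finset (Fin K)).Nonempty :=
    ⟨l, Finset.mem_erase.mpr ⟨hl, Finset.mem_univ _⟩⟩
  have hx0H : x0 ∈ Hull C Γ := H37.hull_sum H hne_erase fun m _ => H.lamHull _ (hw.2 m)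
  -- choice of the speed
  have hsp : ∀ M t : ℝ, 0 < t → ∀ R : ℝ, ∃ S : ℝ, R ≤ S ∧ 1 ≤ S ∧
      M • (x0 + S • w k) - (S * t) • y ∉ closure C := by
    intro M t ht R
    by_contra hcon2
    push Not at hcon2
    have hlim : Tendsto (fun m : ℕ => M • ((1 / ((m : ℝ) + 1)) • x0 + w k) - t • y) atTop
        (𝓝 (M • ((0 : ℝ) • x0 + w k) - t • y)) :=
      (((tendsto_one_div_add_atTop_nhds_zero_nat.smul_const x0).add
        tendsto_const_nhds).const_smul M).sub tendsto_const_nhds
    rw [zero_smul, zero_add] at hlim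
    apply hkey M t ht
    refine isClosed_closure.mem_of_tendsto hlim ?_
    obtain ⟨N, hN⟩ := exists_nat_ge R
    filter_upwards [eventually_ge_atTop N] with m hm
    have hm' : (N : ℝ) ≤ m := by exact_mod_cast hm
    have h0 : (0 : ℝ) ≤ m := Nat.cast_nonneg m
    have h1 := hcon2 ((m : ℝ) + 1) (by linarith) (by linarith)
    have h2 := h.cl_smul h1 (t := 1 / ((m : ℝ) + 1)) (by positivity)
    have e : (1 / ((m : ℝ) + 1)) • (M • (x0 + ((m : ℝ) + 1) • w k) - (((m : ℝ) + 1) * t) • y)
        = M • ((1 / ((m : ℝ) + 1)) • x0 + w k) - t • y := by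
      have hm1 : (m : ℝ) + 1 ≠ 0 := by positivity
      match_scalars <;> field_simp
    rwa [e] at h2
  let t : ℕ → ℝ := fun m => 1 / ((m : ℝ) + 1)
  have ht0 : ∀ m, 0 < t m := fun m => by simp only [t]; positivity
  have htlim : Tendsto t atTop (𝓝 0) := tendsto_one_div_add_atTop_nhds_zero_nat
  choose S hSm hS1 hSn using fun m : ℕ => hsp ((m : ℝ) + 1) (t m) (ht0 m) ((m : ℝ) + 1)
  have hS0 : ∀ m, 0 < S m := fun m => lt_of_lt_of_le one_pos (hS1 m)
  have hSinv : Tendsto (fun m => (S m)⁻¹) atTop (𝓝 0) := by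
    refine squeeze_zero (fun m => (inv_pos.mpr (hS0 m)).le) (fun m => ?_) htlim
    simp only [t]
    rw [one_div]
    exact inv_anti₀ (by positivity) (hSm m)
  let p : ℕ → V n := fun m => x0 + S m • w k + (S m * t m) • y
  have hxSC : ∀ m, x0 + S m • w k ∈ C := fun m => by
    have e : x0 + S m • w k = (∑ i, w i) + (S m - 1) • w k := by
      rw [← hx0k]; module
    rw [e]
    exact h.add_cl hsumC (h.cl_smul (hwcl k) (by have := hS1 m; linarith))
  have hSt : ∀ m, 0 < S m * t m := fun m => mul_pos (hS0 m) (ht0 m)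
  have hpC : ∀ m, p m ∈ C := fun m => h.add_cl (hxSC m) (h.cl_smul hycl (hSt m).le)
  have hpH : ∀ m, p m ∈ Hull C Γ := fun m =>
    H.add _ (H.add _ hx0H _ (H.smul _ (H.lamHull _ (hw.2 k)) _ (hS0 m))) _
      (H.smul _ hyH _ (hSt m))
  obtain ⟨φ, g, s, p0, hφm, hg, hs, hp0, hlimp⟩ := H60.zom n C Γ h p hpC hpH
  -- the family, indexed by Option (Fin K)
  let f : ℕ → Option (Fin K) → V n := fun m o =>
    match o with
    | none => (S m * t m) • y
    | some j => if j = k then S m • w k else w j
  have hfH : ∀ m o, f m o ∈ Hull C Γ := by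
    rintro m (_ | j)
    · exact H.smul _ hyH _ (hSt m)
    · simp only [f]
      split_ifs
      · exact H.smul _ (H.lamHull _ (hw.2 k)) _ (hS0 m)
      · exact H.lamHull _ (hw.2 j)
  have hfsum : ∀ m, ∑ o, f m o = p m := by
    intro m
    rw [Fintype.sum_option]
    have h1 : ∑ j, f m (some j) = S m • w k + x0 := by
      rw [← Finset.add_sum_erase _ _ (Finset.mem_univ k)]
      congr 1
      · simp [f]
      · refine Finset.sum_congr rfl fun j hj => ?_
        simp [f, Finset.ne_of_mem_erase hj]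
    rw [h1]
    simp only [f, p]
    abel
  let X : ℕ → Option (Fin K) → V n := fun m o => s m • act (g m) (f (φ m) o)
  have hsumX : ∀ m, ∑ o, X m o = s m • act (g m) (p (φ m)) := by
    intro m
    simp only [X]
    rw [← Finset.smul_sum, ← CC.act_sum, hfsum]
  have hXH : ∀ m o, X m o ∈ Hull C Γ := fun m o =>
    H.smul _ (H.act _ (hfH _ o) _ (hg m)) _ (hs m)
  have hcard : 2 ≤ Fintype.card (Option (Fin K)) := by
    rw [Fintype.card_option, Fintype.card_fin]; omega
  have hlimX : Tendsto (fun m => ∑ o, X m o) atTop (𝓝 p0) := by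
    simp only [hsumX]; exact hlimp
  obtain ⟨ψ, W, hψ, hWlim, hWsum, hW⟩ := H37.limF n C Γ h (Option (Fin K)) hcard X p0 hXH hp0 hlimX
  have hcomp : Tendsto (fun m => φ (ψ m)) atTop atTop :=
    hφm.tendsto_atTop.comp hψ.tendsto_atTop
  -- general consequence of a sum with one vertex omitted in C
  have hgen : ∀ o : Option (Fin K), ∑ j ∈ Finset.univ.erase o, W j ∈ C →
      ∃ M : ℝ, 0 < M ∧ ∀ᶠ m in atTop,
        M • (p (φ (ψ m)) - f (φ (ψ m)) o) - f (φ (ψ m)) o ∈ C := by
    intro o hmem
    obtain ⟨M, hM, hMC⟩ := h.absorb hmem (W o)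
    refine ⟨M, hM, ?_⟩
    have hl2 : Tendsto (fun m => M • (∑ j ∈ Finset.univ.erase o, X (ψ m) j) - X (ψ m) o) atTop
        (𝓝 (M • (∑ j ∈ Finset.univ.erase o, W j) - W o)) :=
      ((tendsto_finsetSum _ fun j _ => hWlim j).const_smul M).sub (hWlim o)
    filter_upwards [hl2.eventually (h.isOpen.mem_nhds hMC)] with m hm
    have hm' : M • (∑ j ∈ Finset.univ.erase o, X (ψ m) j) - X (ψ m) o ∈ C := hm
    have e : M • (∑ j ∈ Finset.univ.erase o, X (ψ m) j) - X (ψ m) o
        = s (ψ m) • act (g (ψ m)) (M • (p (φ (ψ m)) - f (φ (ψ m)) o) - f (φ (ψ m)) o) := by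
      rw [Finset.sum_erase_eq_sub (Finset.mem_univ _), hsumX]
      simp only [X]
      rw [CC.act_sub, CC.act_smul, CC.act_sub]
      module
    rw [e, h.sact_mem_iff (hg _) (hs _)] at hm'
    exact hm'
  have hPES : IsPES C Γ W := by
    apply hW
    rintro (_ | a) hmem
    · -- omit y
      obtain ⟨M, hM, hev⟩ := hgen none hmem
      obtain ⟨N, hN⟩ := exists_nat_ge M
      obtain ⟨m, hm1, hm2⟩ := (hev.and (hcomp.eventually (eventually_ge_atTop N))).exists
      apply hSn (φ (ψ m))
      have e1 : p (φ (ψ m)) - f (φ (ψ m)) none = x0 + S (φ (ψ m)) • w k := by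
        simp only [p, f]; abel
      rw [e1] at hm1
      have e2 : ((φ (ψ m) : ℝ) + 1) • (x0 + S (φ (ψ m)) • w k)
            - (S (φ (ψ m)) * t (φ (ψ m))) • y
          = (M • (x0 + S (φ (ψ m)) • w k) - (S (φ (ψ m)) * t (φ (ψ m))) • y)
            + (((φ (ψ m) : ℝ) + 1) - M) • (x0 + S (φ (ψ m)) • w k) := by
        module
      have hm3 : (N : ℝ) ≤ (φ (ψ m) : ℝ) := by exact_mod_cast hm2
      rw [e2]
      refine h.cl_add (subset_closure hm1) (h.cl_smul (subset_closure (hxSC _)) ?_)
      linarith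
    · by_cases hak : a = k
      · -- omit w k
        subst hak
        obtain ⟨M, hM, hev⟩ := hgen (some a) hmem
        have hlim3 : Tendsto (fun m => M • ((S (φ (ψ m)))⁻¹ • x0 + t (φ (ψ m)) • y) - w a) atTop
            (𝓝 (M • ((0 : ℝ) • x0 + (0 : ℝ) • y) - w a)) :=
          ((((hSinv.comp hcomp).smul_const x0).add
            ((htlim.comp hcomp).smul_const y)).const_smul M).sub tendsto_const_nhds
        rw [zero_smul, zero_smul, add_zero, smul_zero, zero_sub] at hlim3
        have hcl3 : -w a ∈ closure C := by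
          refine isClosed_closure.mem_of_tendsto hlim3 ?_
          filter_upwards [hev] with m hm
          have e1 : p (φ (ψ m)) - f (φ (ψ m)) (some a)
              = x0 + (S (φ (ψ m)) * t (φ (ψ m))) • y := by
            simp only [p, f, if_true]; abel
          have e0 : f (φ (ψ m)) (some a) = S (φ (ψ m)) • w a := by simp [f]
          rw [e1, e0] at hm
          have h2 := h.cl_smul (subset_closure hm) (t := (S (φ (ψ m)))⁻¹)
            (inv_pos.mpr (hS0 _)).le
          have e2 : (S (φ (ψ m)))⁻¹ • (M • (x0 + (S (φ (ψ m)) * t (φ (ψ m))) • y)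
              - S (φ (ψ m)) • w a)
              = M • ((S (φ (ψ m)))⁻¹ • x0 + t (φ (ψ m)) • y) - w a := by
            have hSne : S (φ (ψ m)) ≠ 0 := (hS0 _).ne'
            match_scalars <;> field_simp
          rwa [e2] at h2
        exact hwk0 (h.salient _ (hwcl a) hcl3)
      · -- omit w a
        obtain ⟨M, hM, hev⟩ := hgen (some a) hmem
        obtain ⟨m, hm⟩ := hev.exists
        have hfa : f (φ (ψ m)) (some a) = w a := by simp [f, hak]
        rw [hfa] at hm
        have h1 : M • (p (φ (ψ m)) - w a) ∈ C := by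
          have := h.add_cl hm (hwcl a)
          rwa [sub_add_cancel] at this
        rw [h.smul_iff hM] at h1
        apply hcon a hak
        -- z = x0 - w a
        have hale : a ∈ (Finset.univ.erase k : Finset (Fin K)) :=
          Finset.mem_erase.mpr ⟨hak, Finset.mem_univ a⟩
        have hz : x0 - w a ∈ closure C := by
          have e4 : x0 - w a = ∑ m ∈ (Finset.univ.erase k).erase a, w m := by
            rw [Finset.sum_erase_eq_sub hale]
          rw [e4]
          exact h.cl_sum fun m _ => hwcl m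
        have e5 : ∑ i ∈ Finset.univ.erase a, w i = (x0 - w a) + w k := by
          rw [Finset.sum_erase_eq_sub (Finset.mem_univ a), ← hx0k]
          abel
        rw [e5]
        set S' := S (φ (ψ m)) with hS'
        set t' := t (φ (ψ m)) with ht'
        have hS'0 : 0 < S' := hS0 _
        have hSt' : 0 < S' * t' := hSt _
        have hA : 0 < 1 + S' + S' * t' := by positivity
        rw [← h.smul_iff hA]
        refine h.mem_of_le h1 ?_
        have e6 : (1 + S' + S' * t') • (x0 - w a + w k + y) - (p (φ (ψ m)) - w a)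
            = (S' + S' * t') • (x0 - w a) + (1 + S' * t') • w k + (1 + S') • y := by
          simp only [p, ← hS', ← ht']
          module
        rw [e6]
        exact h.cl_add (h.cl_add (h.cl_smul hz (by positivity))
          (h.cl_smul (hwcl k) (by positivity))) (h.cl_smul hycl (by positivity))
  -- contradiction with maximality
  have hcardK : Fintype.card (Option (Fin K)) = K + 1 := by
    rw [Fintype.card_option, Fintype.card_fin]
  have e := Fintype.equivFinOfCardEq hcardK
  have hfin := (H60.elm n C Γ h (Option (Fin K)) W hPES).2.2.1 (Fin (K + 1)) e.symm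
  have := hmax (K + 1) _ hfin
  omega

end Pool.Agent.NTS.H49
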